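import Pool.Agent.H44.CL3

open Filter MeasureTheory Topology Pool.Agent.H44.CL

theorem Pool.Agent.Results.MP_78de02_pr.Q1True.result (p : ℕ) [Fact p.Prime]
    [MeasurableSpace ℤ_[p]] [BorelSpace ℤ_[p]] (μ : Measure ℤ_[p]) [μ.IsAddHaarMeasure]
    [IsProbabilityMeasure μ] (σ : ∀ n, Fin n → Finset (Fin n)) :
    (∀ (G : Type) [AddCommGroup G] [Finite G], (∃ e : ℕ, Nat.card G = p ^ e) →
      Tendsto (fun n => (PP μ n).real {ω | Nonempty (cok (mat (σ n) ω) ≃+ G)}) atTop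
        (𝓝 (cp p / Nat.card (AddAut G)))) ↔
    Tendsto (fun n => (PP μ n).real {ω | ((mat (σ n) ω).map PadicInt.toZMod).det ≠ 0}) atTop
      (𝓝 (cp p)) :=
  Pool.Agent.H44.CL.main μ σ
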